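import Pool.Agent.H.MP_abf7f7_an.Pl.Circ

/-! Singer's planar difference sets: `G = K^* / F^*`, `K` of degree 3 over the finite field `F`, and
`D` = the classes of the nonzero elements of a plane `W`. -/

set_option autoImplicit false

namespace Pool.Agent.H.MP_abf7f7_an

open Matrix Finset Module

section

variable {F K : Type} [Field F] [Finite F] [Field K] [Finite K] [Algebra F K]

/-- The nonzero elements of `F`. -/
private def Singer_N (F K : Type) [Field F] [Field K] [Algebra F K] : Subgroup Kˣ :=
  (Units.map (algebraMap F K : F →* K)).range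

private theorem Singer_card (h3 : finrank F K = 3) :
    Nat.card (Kˣ ⧸ Singer_N F K) = Nat.card F ^ 2 + Nat.card F + 1 := by
  have h1 : Nat.card Kˣ = Nat.card (Kˣ ⧸ Singer_N F K) * Nat.card (Singer_N F K) :=
    Subgroup.card_eq_card_quotient_mul_card_subgroup _
  have h2 : Nat.card (Singer_N F K) = Nat.card F - 1 := by
    have h4 : Function.Injective (Units.map (algebraMap F K : F →* K)) :=
      Units.map_injective (algebraMap F K).injective
    rw [← Nat.card_units F]
    exact (Nat.card_congr (MonoidHom.ofInjective h4).toEquiv).symm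
  have h5 : Nat.card K = Nat.card F ^ 3 := by
    rw [Module.natCard_eq_pow_finrank (K := F) (V := K), h3]
  have h6 : 1 < Nat.card F := Finite.one_lt_card
  rw [Nat.card_units, h5, h2] at h1
  obtain ⟨r, hr⟩ : ∃ r, Nat.card F = r + 2 := ⟨Nat.card F - 2, by omega⟩
  rw [hr] at h1 ⊢
  have h7 : (r + 2) ^ 3 - 1 = ((r + 2) ^ 2 + (r + 2) + 1) * (r + 1) := by
    have : (r + 2) ^ 3 = ((r + 2) ^ 2 + (r + 2) + 1) * (r + 1) + 1 := by ring
    rw [this, Nat.add_sub_cancel]
  rw [h7, show r + 2 - 1 = r + 1 by omega] at h1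
  exact (Nat.eq_of_mul_eq_mul_right (Nat.succ_pos r) h1).symm

/-- A plane is not stable under an element outside of `F`. -/
private theorem Singer_stable (h3 : finrank F K = 3) {W : Submodule F K} (hW : finrank F W = 2)
    {g : K} (hg : g ∉ (algebraMap F K).range) : ¬ ∀ w ∈ W, g * w ∈ W := by
  intro h
  have : FiniteDimensional F K := FiniteDimensional.of_finrank_eq_succ h3
  -- `F(g) = K`
  have h4 : IntermediateField.adjoin F {g} = ⊤ := by
    have h5 : finrank F (IntermediateField.adjoin F {g}) ∣ 3 := by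
      rw [← h3]
      exact Dvd.intro _ (finrank_mul_finrank F (IntermediateField.adjoin F {g}) K)
    rcases (Nat.dvd_prime Nat.prime_three).1 h5 with h6 | h6
    · exfalso
      rw [IntermediateField.finrank_eq_one_iff] at h6
      have h7 : g ∈ (⊥ : IntermediateField F K) := by
        rw [← h6]
        exact IntermediateField.mem_adjoin_simple_self F g
      rw [IntermediateField.mem_bot] at h7
      exact hg h7
    · apply IntermediateField.eq_of_le_of_finrank_eq le_top
      rw [h6, IntermediateField.finrank_top', h3]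
  have h5 : Algebra.adjoin F {g} = ⊤ := by
    have h6 : IsAlgebraic F g := Algebra.IsAlgebraic.isAlgebraic g
    rw [← IntermediateField.adjoin_simple_toSubalgebra_of_isAlgebraic h6, h4]
    rfl
  have h6 : ∀ y : K, ∀ w ∈ W, y * w ∈ W := by
    intro y
    have hy : y ∈ Algebra.adjoin F {g} := by
      rw [h5]
      exact Algebra.mem_top
    induction hy using Algebra.adjoin_induction with
    | mem x hx =>
      rw [Set.mem_singleton_iff] at hx
      rw [hx]
      exact h
    | algebraMap r =>
      intro w hw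
      rw [← Algebra.smul_def]
      exact W.smul_mem r hw
    | add x y _ _ hx hy =>
      intro w hw
      rw [add_mul]
      exact W.add_mem (hx w hw) (hy w hw)
    | mul x y _ _ hx hy =>
      intro w hw
      rw [mul_assoc]
      exact hx _ (hy w hw)
  have h7 : W ≠ ⊥ := by
    rintro rfl
    rw [finrank_bot] at hW
    omega
  obtain ⟨w, hw, hw0⟩ := (Submodule.ne_bot_iff W).1 h7
  have h8 : W = ⊤ := by
    rw [eq_top_iff]
    intro y _
    have h9 := h6 (y * w⁻¹) w hw
    rwa [mul_assoc, inv_mul_cancel₀ hw0, mul_one] at h9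
  rw [h8, finrank_top, h3] at hW
  omega

/-- The intersection of a plane and its multiple is a line. -/
private theorem Singer_line (h3 : finrank F K = 3) {W : Submodule F K} (hW : finrank F W = 2)
    {g : K} (hg : g ∉ (algebraMap F K).range) :
    ∃ w : K, w ≠ 0 ∧ w ∈ W ∧ g * w ∈ W ∧ ∀ y ∈ W, g * y ∈ W → ∃ c : F, y = c • w := by
  have : FiniteDimensional F K := FiniteDimensional.of_finrank_eq_succ h3
  have hg0 : g ≠ 0 := by
    rintro rfl
    exact hg ⟨0, map_zero _⟩
  let L : K →ₗ[F] K := LinearMap.mulLeft F g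
  have hL : ∀ x, L x = g * x := fun x => rfl
  have hLi : Function.Injective L := fun x y h => mul_left_cancel₀ hg0 h
  set V : Submodule F K := W.comap L with hV
  have hVm : ∀ x, x ∈ V ↔ g * x ∈ W := fun x => Iff.rfl
  have hVf : finrank F V = 2 := by
    have hLs : Function.Surjective L := LinearMap.injective_iff_surjective.1 hLi
    have h4 : V.map L = W := Submodule.map_comap_eq_of_surjective hLs W
    rw [← hW, ← h4]
    exact (Submodule.equivMapOfInjective L hLi V).finrank_eq
  have hne : W ⊔ V ≠ W := by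
    intro h
    have h4 : V ≤ W := by
      rw [← h]
      exact le_sup_right
    have h5 : V = W := Submodule.eq_of_le_of_finrank_eq h4 (by rw [hVf, hW])
    refine Singer_stable h3 hW hg fun w hw => ?_
    rw [← h5] at hw
    exact (hVm w).1 hw
  have hsup : finrank F (W ⊔ V : Submodule F K) = 3 := by
    have h4 : finrank F W < finrank F (W ⊔ V : Submodule F K) :=
      Submodule.finrank_lt_finrank_of_lt (lt_of_le_of_ne le_sup_left hne.symm)
    have h5 : finrank F (W ⊔ V : Submodule F K) ≤ finrank F K := Submodule.finrank_le _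
    omega
  have hinf : finrank F (W ⊓ V : Submodule F K) = 1 := by
    have h4 := Submodule.finrank_sup_add_finrank_inf_eq W V
    omega
  obtain ⟨w, hw0, hw⟩ := finrank_eq_one_iff'.1 hinf
  have hw1 := Submodule.mem_inf.1 w.2
  refine ⟨w, fun h => hw0 (Subtype.ext h), hw1.1, (hVm _).1 hw1.2, fun y hy hgy => ?_⟩
  obtain ⟨c, hc⟩ := hw ⟨y, Submodule.mem_inf.2 ⟨hy, (hVm y).2 hgy⟩⟩
  exact ⟨c, (congrArg Subtype.val hc).symm⟩

private theorem Singer_mem {x : Kˣ} (hx : (x : K) ∈ (algebraMap F K).range) :
    x ∈ Singer_N F K := by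
  obtain ⟨c, hc⟩ := hx
  have hc0 : c ≠ 0 := by
    rintro rfl
    rw [map_zero] at hc
    exact x.ne_zero hc.symm
  refine ⟨Units.mk0 c hc0, ?_⟩
  apply Units.ext
  exact hc

open Classical in
/-- Singer's theorem. -/
private theorem Singer_planar (h3 : finrank F K = 3) :
    ∃ (G : Type) (_ : AddCommGroup G) (_ : Fintype G) (D : Finset G),
      Fintype.card G = Nat.card F ^ 2 + Nat.card F + 1 ∧ Planar D := by
  have : FiniteDimensional F K := FiniteDimensional.of_finrank_eq_succ h3
  obtain ⟨W, hW⟩ : ∃ W : Submodule F K, finrank F W = 2 := by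
    let b : Basis (Fin 3) F K := finBasisOfFinrankEq F K h3
    have h4 : LinearIndependent F (fun i : Fin 2 => b (Fin.castSucc i)) :=
      b.linearIndependent.comp _ (Fin.castSucc_injective 2)
    exact ⟨Submodule.span F (Set.range fun i : Fin 2 => b (Fin.castSucc i)), by
      rw [finrank_span_eq_card h4, Fintype.card_fin]⟩
  let Q := Kˣ ⧸ Singer_N F K
  let _ : Fintype (Additive Q) := Fintype.ofFinite _
  let D : Finset (Additive Q) := Finset.univ.filter fun x =>
    ∃ w : Kˣ, (w : K) ∈ W ∧ x = Additive.ofMul (QuotientGroup.mk w : Q)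
  refine ⟨Additive Q, inferInstance, inferInstance, D, ?_, ?_⟩
  · rw [← Nat.card_eq_fintype_card]
    exact Singer_card h3
  · intro g hg
    obtain ⟨y, hy⟩ := QuotientGroup.mk_surjective (Additive.toMul g)
    have hyF : (y : K) ∉ (algebraMap F K).range := by
      intro h
      apply hg
      have h4 : (QuotientGroup.mk y : Q) = 1 := (QuotientGroup.eq_one_iff y).2 (Singer_mem h)
      rw [hy] at h4
      exact h4
    obtain ⟨w, hw0, hwW, hgw, huniq⟩ := Singer_line h3 hW hyF
    have hgw0 : (y : K) * w ≠ 0 := mul_ne_zero y.ne_zero hw0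
    refine ⟨(Additive.ofMul (QuotientGroup.mk (y * Units.mk0 w hw0) : Q),
      Additive.ofMul (QuotientGroup.mk (Units.mk0 w hw0) : Q)), ⟨?_, ?_, ?_⟩, ?_⟩
    · exact Finset.mem_filter.2 ⟨Finset.mem_univ _, y * Units.mk0 w hw0, hgw, rfl⟩
    · exact Finset.mem_filter.2 ⟨Finset.mem_univ _, Units.mk0 w hw0, hwW, rfl⟩
    · show Additive.ofMul ((QuotientGroup.mk (y * Units.mk0 w hw0) : Q) /
        (QuotientGroup.mk (Units.mk0 w hw0) : Q)) = g
      rw [QuotientGroup.mk_mul, mul_div_cancel_right, hy]
      rfl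
    · rintro ⟨a, b⟩ ⟨ha, hb, hab⟩
      obtain ⟨-, u, hu, ha'⟩ := Finset.mem_filter.1 ha
      obtain ⟨-, u', hu', hb'⟩ := Finset.mem_filter.1 hb
      -- `u = y u' c` with `c ∈ F`
      have h4 : (QuotientGroup.mk u : Q) = QuotientGroup.mk (u' * y) := by
        have h5 : (QuotientGroup.mk u : Q) / QuotientGroup.mk u' = QuotientGroup.mk y := by
          rw [hy, ← hab]
          show _ = Additive.toMul (a - b)
          rw [show a = Additive.ofMul (QuotientGroup.mk u : Q) from ha',
            show b = Additive.ofMul (QuotientGroup.mk u' : Q) from hb']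
          rfl
        have h6 : (QuotientGroup.mk u : Q) = QuotientGroup.mk y * QuotientGroup.mk u' :=
          div_eq_iff_eq_mul.1 h5
        rw [h6, ← QuotientGroup.mk_mul, mul_comm]
      rw [eq_comm, QuotientGroup.eq] at h4
      obtain ⟨c, hc⟩ := h4
      have hc1 : (c : F) • ((u' : K) * y) = u := by
        have h5 : (u' * y) * Units.map (algebraMap F K : F →* K) c = u := by
          rw [hc]
          exact mul_inv_cancel_left _ _
        rw [Algebra.smul_def, mul_comm]
        exact congrArg Units.val h5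
      have hyu : (y : K) * u' ∈ W := by
        have h5 : (y : K) * u' = ((c⁻¹ : Fˣ) : F) • (u : K) := by
          rw [← hc1, smul_smul, Units.inv_mul, one_smul, mul_comm]
        rw [h5]
        exact W.smul_mem _ hu
      obtain ⟨d, hd⟩ := huniq u' hu' hyu
      have hb2 : (QuotientGroup.mk u' : Q) = QuotientGroup.mk (Units.mk0 w hw0) := by
        rw [eq_comm, QuotientGroup.eq]
        apply Singer_mem
        refine ⟨d, ?_⟩
        show algebraMap F K d = w⁻¹ * (u' : K)
        rw [hd, Algebra.smul_def, mul_comm, mul_assoc, mul_inv_cancel₀ hw0, mul_one]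
      have hb3 : b = Additive.ofMul (QuotientGroup.mk (Units.mk0 w hw0) : Q) := by
        rw [show b = Additive.ofMul (QuotientGroup.mk u' : Q) from hb', hb2]
      have ha3 : a = Additive.ofMul (QuotientGroup.mk (y * Units.mk0 w hw0) : Q) := by
        have h5 : a = g + b := by
          rw [← hab]
          exact (sub_add_cancel a b).symm
        rw [h5, hb3]
        show Additive.ofMul (Additive.toMul g * (QuotientGroup.mk (Units.mk0 w hw0) : Q)) = _
        rw [← hy]
        rfl
      exact Prod.ext ha3 hb3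

end

/-- For every prime power `q` there is an Ehlich-Wojtas matrix of order `2 (q ^ 2 + q + 1)`. -/
theorem planar_ew (q : ℕ) (hq : IsPrimePow q) : ∃ (G : Type) (_ : Fintype G) (_ : DecidableEq G)
    (M : Matrix (G ⊕ G) (G ⊕ G) ℝ), Fintype.card G = q ^ 2 + q + 1 ∧
    (∀ i j, M i j = 1 ∨ M i j = -1) ∧
    M * Mᵀ = (2 * ((q : ℝ) ^ 2 + q + 1) - 2) • (1 : Matrix (G ⊕ G) (G ⊕ G) ℝ) +
      (2 : ℝ) • Matrix.fromBlocks (Matrix.of fun _ _ => 1) 0 0 (Matrix.of fun _ _ => 1) := by
  classical
  obtain ⟨p, k, hp, hk, rfl⟩ := hq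
  have hp' : p.Prime := hp.nat_prime
  have : Fact p.Prime := ⟨hp'⟩
  have h1 : Nat.card (GaloisField p k) = p ^ k := GaloisField.card p k hk.ne'
  have h3 : finrank (GaloisField p k) (FiniteField.Extension (GaloisField p k) p 3) = 3 :=
    FiniteField.finrank_extension _ _ _
  obtain ⟨G, i1, i2, D, hc, hD⟩ := Singer_planar h3
  rw [h1] at hc
  obtain ⟨M, hM, hMM⟩ := Circ_ew hD
  refine ⟨G, i2, inferInstance, M, hc, hM, ?_⟩
  rw [hMM, hc]
  push_cast
  rfl

end Pool.Agent.H.MP_abf7f7_an
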