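import Mathlib

/-! Sign matrices from planar difference sets. -/

set_option autoImplicit false

namespace Pool.Agent.H.MP_abf7f7_an

open Matrix Finset

/-- `D` is a planar difference set in the finite abelian group `G`: every nonzero element is a
difference of two elements of `D` in exactly one way. -/
def Planar {G : Type} [AddCommGroup G] (D : Finset G) : Prop :=
  ∀ g : G, g ≠ 0 → ∃! p : G × G, p.1 ∈ D ∧ p.2 ∈ D ∧ p.1 - p.2 = g

variable {G : Type} [AddCommGroup G] [Fintype G] [DecidableEq G] {D : Finset G}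

private theorem Circ_fib (hD : Planar D) {g : G} (hg : g ≠ 0) :
    ((D ×ˢ D).filter (fun p => p.1 - p.2 = g)).card = 1 := by
  obtain ⟨p, ⟨h1, h2, h3⟩, h4⟩ := hD g hg
  rw [Finset.card_eq_one]
  refine ⟨p, ?_⟩
  ext r
  rw [Finset.mem_filter, Finset.mem_product, Finset.mem_singleton]
  refine ⟨fun h => h4 r ⟨h.1.1, h.1.2, h.2⟩, fun h => ?_⟩
  rw [h]
  exact ⟨⟨h1, h2⟩, h3⟩

private theorem Circ_fib0 (D : Finset G) :
    ((D ×ˢ D).filter (fun p => p.1 - p.2 = 0)).card = D.card := by
  symm
  refine Finset.card_bij (fun d _ => (d, d)) (fun d hd => ?_) (fun a _ b _ h => ?_) (fun p hp => ?_)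
  · rw [Finset.mem_filter, Finset.mem_product]
    exact ⟨⟨hd, hd⟩, sub_self d⟩
  · exact (Prod.mk.inj h).1
  · rw [Finset.mem_filter, Finset.mem_product] at hp
    exact ⟨p.1, hp.1.1, Prod.ext rfl (sub_eq_zero.1 hp.2)⟩

theorem Circ_card (hD : Planar D) : D.card * D.card + 1 = Fintype.card G + D.card := by
  have h1 := Finset.card_eq_sum_card_fiberwise (f := fun p : G × G => p.1 - p.2) (s := D ×ˢ D)
    (t := Finset.univ) (fun _ _ => Finset.mem_coe.2 (Finset.mem_univ _))
  rw [Finset.card_product] at h1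
  rw [← Finset.add_sum_erase _ _ (Finset.mem_univ (0 : G)), Circ_fib0] at h1
  have h2 : ∑ g ∈ Finset.univ.erase (0 : G), ((D ×ˢ D).filter (fun p => p.1 - p.2 = g)).card =
      ∑ _g ∈ Finset.univ.erase (0 : G), 1 :=
    Finset.sum_congr rfl fun g hg => Circ_fib hD (Finset.ne_of_mem_erase hg)
  rw [h2, Finset.sum_const, Finset.card_erase_of_mem (Finset.mem_univ _), Finset.card_univ,
    smul_eq_mul, mul_one] at h1
  have h3 : 0 < Fintype.card G := Fintype.card_pos
  omega

/-- The indicator function. -/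
private def Circ_c (D : Finset G) (g : G) : ℝ := if g ∈ D then 1 else 0

private theorem Circ_cc (D E : Finset G) (x y : G) : Circ_c D x * Circ_c E y =
    if x ∈ D ∧ y ∈ E then 1 else 0 := by
  unfold Circ_c
  by_cases h1 : x ∈ D <;> by_cases h2 : y ∈ E <;> simp [h1, h2]

/-- All entries are `1`. -/
private def Circ_J (G : Type) : Matrix G G ℝ := Matrix.of fun _ _ => 1

private theorem Circ_corr (hD : Planar D) :
    circulant (Circ_c D) * (circulant (Circ_c D))ᵀ =
      ((D.card : ℝ) - 1) • (1 : Matrix G G ℝ) + Circ_J G := by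
  ext x y
  have h1 : (circulant (Circ_c D) * (circulant (Circ_c D))ᵀ) x y =
      (((D ×ˢ D).filter (fun p => p.1 - p.2 = x - y)).card : ℝ) := by
    rw [Matrix.mul_apply]
    simp only [Matrix.transpose_apply, circulant_apply, Circ_cc]
    rw [Finset.sum_boole]
    congr 1
    refine Finset.card_bij (fun z _ => (x - z, y - z)) (fun z hz => ?_) (fun a _ b _ h => ?_)
      (fun p hp => ?_)
    · rw [Finset.mem_filter] at hz
      rw [Finset.mem_filter, Finset.mem_product]
      refine ⟨hz.2, ?_⟩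
      show x - z - (y - z) = x - y
      abel
    · exact sub_right_injective (Prod.mk.inj h).1
    · rw [Finset.mem_filter, Finset.mem_product] at hp
      have h2 : y - (x - p.1) = p.2 := by
        have := hp.2
        rw [← sub_eq_zero] at this ⊢
        rw [← this]
        abel
      refine ⟨x - p.1, ?_, ?_⟩
      · rw [Finset.mem_filter]
        refine ⟨Finset.mem_univ _, ?_, ?_⟩
        · rw [sub_sub_cancel]
          exact hp.1.1
        · rw [h2]
          exact hp.1.2
      · exact Prod.ext (sub_sub_cancel x p.1) h2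
  rw [h1, Matrix.add_apply, Matrix.smul_apply, smul_eq_mul]
  show _ = _ + 1
  rcases eq_or_ne x y with h | h
  · rw [h, sub_self, Circ_fib0, Matrix.one_apply_eq]
    ring
  · rw [Circ_fib hD (sub_ne_zero.2 h), Matrix.one_apply_ne h]
    norm_num

private theorem Circ_mulJ (D : Finset G) :
    circulant (Circ_c D) * Circ_J G = (D.card : ℝ) • Circ_J G := by
  ext x y
  rw [Matrix.mul_apply, Matrix.smul_apply]
  have h1 : ∀ z, circulant (Circ_c D) x z * Circ_J G z y = if x - z ∈ D then 1 else 0 := by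
    intro z
    show Circ_c D (x - z) * 1 = _
    rw [mul_one]
    rfl
  simp only [h1]
  rw [Finset.sum_boole]
  show _ = (D.card : ℝ) * 1
  rw [mul_one]
  congr 1
  refine Finset.card_bij (fun z _ => x - z) (fun z hz => ?_) (fun a _ b _ h => ?_)
    (fun p hp => ?_)
  · exact (Finset.mem_filter.1 hz).2
  · exact sub_right_injective h
  · refine ⟨x - p, ?_, sub_sub_cancel x p⟩
    rw [Finset.mem_filter, sub_sub_cancel]
    exact ⟨Finset.mem_univ _, hp⟩

private theorem Circ_JJ : Circ_J G * Circ_J G = (Fintype.card G : ℝ) • Circ_J G := by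
  ext x y
  rw [Matrix.mul_apply, Matrix.smul_apply]
  show ∑ _z : G, (1 : ℝ) * 1 = (Fintype.card G : ℝ) * 1
  simp

private theorem Circ_odd (hD : Planar D) {x : G} (hx : x + x = 0) : x = 0 := by
  have h1 := Circ_card hD
  have h2 : Odd (Fintype.card G) := by
    rcases Nat.even_or_odd (Fintype.card G) with h | h
    · exfalso
      obtain ⟨a, ha⟩ := h
      have h3 : Even (D.card * D.card + D.card) := by
        have := Nat.even_mul_succ_self D.card
        rwa [Nat.mul_succ] at this
      obtain ⟨b, hb⟩ := h3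
      omega
    · exact h
  have h3 : addOrderOf x ∣ 2 := addOrderOf_dvd_of_nsmul_eq_zero (by rw [two_nsmul, hx])
  have h4 : addOrderOf x ∣ Fintype.card G := addOrderOf_dvd_card
  have h5 : addOrderOf x ∣ 1 := by
    have h6 : Nat.Coprime 2 (Fintype.card G) := (Nat.coprime_two_left).2 h2
    rw [← h6]
    exact Nat.dvd_gcd h3 h4
  exact AddMonoid.addOrderOf_eq_one_iff.1 (Nat.dvd_one.1 h5)

private theorem Circ_inj (hD : Planar D) : Function.Injective (fun x : G => x + x) := by
  intro x y h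
  have h1 : (x - y) + (x - y) = 0 := by
    have h2 : x + x = y + y := h
    calc (x - y) + (x - y) = (x + x) - (y + y) := by abel
      _ = 0 := by rw [h2, sub_self]
  exact sub_eq_zero.1 (Circ_odd hD h1)

private theorem Circ_two (hD : Planar D) : Planar (D.image (fun x : G => x + x)) := by
  intro g hg
  have hi := Circ_inj hD
  obtain ⟨h, rfl⟩ := (Finite.injective_iff_surjective.1 hi) g
  have hh : h ≠ 0 := by
    rintro rfl
    exact hg (add_zero 0)
  obtain ⟨p, ⟨h1, h2, h3⟩, h4⟩ := hD h hh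
  refine ⟨(p.1 + p.1, p.2 + p.2), ⟨Finset.mem_image_of_mem _ h1, Finset.mem_image_of_mem _ h2, ?_⟩,
    ?_⟩
  · show p.1 + p.1 - (p.2 + p.2) = h + h
    rw [← h3]
    abel
  · rintro ⟨a, b⟩ ⟨ha, hb, hab⟩
    obtain ⟨d, hd, rfl⟩ := Finset.mem_image.1 ha
    obtain ⟨d', hd', rfl⟩ := Finset.mem_image.1 hb
    have h5 : d - d' = h := by
      apply hi
      have hab' : d + d - (d' + d') = h + h := hab
      show d - d' + (d - d') = h + h
      rw [← hab']
      abel
    have h6 := h4 (d, d') ⟨hd, hd', h5⟩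
    rw [← h6]

private theorem Circ_two_card (hD : Planar D) :
    (D.image (fun x : G => x + x)).card = D.card :=
  Finset.card_image_of_injective _ (Circ_inj hD)

/-- The number of representations as a sum. -/
private def Circ_s (D : Finset G) (g : G) : ℕ :=
  ((D ×ˢ D).filter (fun p => p.1 + p.2 = g)).card

private theorem Circ_sq (D : Finset G) (x y : G) :
    (circulant (Circ_c D) * circulant (Circ_c D)) x y = (Circ_s D (x - y) : ℝ) := by
  rw [Matrix.mul_apply]
  simp only [circulant_apply, Circ_cc]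
  rw [Finset.sum_boole]
  congr 1
  refine Finset.card_bij (fun z _ => (x - z, z - y)) (fun z hz => ?_) (fun a _ b _ h => ?_)
    (fun p hp => ?_)
  · rw [Finset.mem_filter] at hz
    rw [Finset.mem_filter, Finset.mem_product]
    refine ⟨hz.2, ?_⟩
    show x - z + (z - y) = x - y
    abel
  · exact sub_right_injective (Prod.mk.inj h).1
  · rw [Finset.mem_filter, Finset.mem_product] at hp
    have h2 : x - p.1 - y = p.2 := by
      have := hp.2
      rw [← sub_eq_zero] at this ⊢
      rw [← neg_eq_zero, ← this]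
      abel
    refine ⟨x - p.1, ?_, ?_⟩
    · rw [Finset.mem_filter]
      refine ⟨Finset.mem_univ _, ?_, ?_⟩
      · rw [sub_sub_cancel]
        exact hp.1.1
      · rw [h2]
        exact hp.1.2
    · exact Prod.ext (sub_sub_cancel x p.1) h2

/-- Two representations as a sum. -/
private theorem Circ_rep (hD : Planar D) {d d' e e' : G} (hd : d ∈ D) (hd' : d' ∈ D) (he : e ∈ D)
    (he' : e' ∈ D) (h : d + d' = e + e') : (d = e ∧ d' = e') ∨ (d = e' ∧ d' = e) := by
  have h1 : d - e = e' - d' := by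
    have h2 : d - e - (e' - d') = (d + d') - (e + e') := by abel
    rw [h, sub_self] at h2
    exact sub_eq_zero.1 h2
  rcases eq_or_ne d e with h2 | h2
  · left
    refine ⟨h2, ?_⟩
    rw [h2] at h
    exact add_left_cancel h
  · right
    obtain ⟨p, -, h4⟩ := hD (d - e) (sub_ne_zero.2 h2)
    have h5 := h4 (d, e) ⟨hd, he, rfl⟩
    have h6 := h4 (e', d') ⟨he', hd', h1.symm⟩
    have h7 := Prod.mk.inj (h5.trans h6.symm)
    exact ⟨h7.1, h7.2.symm⟩

private theorem Circ_s_one (hD : Planar D) {g : G} (hg : g ∈ D.image (fun x : G => x + x)) :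
    Circ_s D g = 1 := by
  obtain ⟨e, he, rfl⟩ := Finset.mem_image.1 hg
  unfold Circ_s
  rw [Finset.card_eq_one]
  refine ⟨(e, e), ?_⟩
  ext r
  rw [Finset.mem_filter, Finset.mem_product, Finset.mem_singleton]
  constructor
  · rintro ⟨⟨h1, h2⟩, h3⟩
    rcases Circ_rep hD h1 h2 he he h3 with h4 | h4
    · exact Prod.ext h4.1 h4.2
    · exact Prod.ext h4.1 h4.2
  · rintro rfl
    exact ⟨⟨he, he⟩, rfl⟩

private theorem Circ_s_two (hD : Planar D) {g : G} (hg : g ∉ D.image (fun x : G => x + x)) :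
    Circ_s D g = 0 ∨ Circ_s D g = 2 := by
  unfold Circ_s
  rcases Finset.eq_empty_or_nonempty ((D ×ˢ D).filter (fun p => p.1 + p.2 = g)) with h | h
  · left
    rw [h, Finset.card_empty]
  · right
    obtain ⟨⟨d, d'⟩, h1⟩ := h
    rw [Finset.mem_filter, Finset.mem_product] at h1
    obtain ⟨⟨hd, hd'⟩, hg'⟩ := h1
    have hne : d ≠ d' := by
      rintro rfl
      exact hg (Finset.mem_image.2 ⟨d, hd, hg'⟩)
    rw [Finset.card_eq_two]
    refine ⟨(d, d'), (d', d), fun h => hne (Prod.mk.inj h).1, ?_⟩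
    ext r
    rw [Finset.mem_filter, Finset.mem_product, Finset.mem_insert, Finset.mem_singleton]
    constructor
    · rintro ⟨⟨h1, h2⟩, h3⟩
      rcases Circ_rep hD h1 h2 hd hd' (h3.trans hg'.symm) with h4 | h4
      · exact Or.inl (Prod.ext h4.1 h4.2)
      · exact Or.inr (Prod.ext h4.1 h4.2)
    · rintro (rfl | rfl)
      · exact ⟨⟨hd, hd'⟩, hg'⟩
      · exact ⟨⟨hd', hd⟩, by rw [← hg']; exact add_comm _ _⟩

private theorem Circ_comm {T X : Matrix G G ℝ} (h : T * X = X * T) :
    (T - X) * (T + X) = (T + X) * (T - X) := by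
  rw [Matrix.sub_mul, Matrix.mul_add, Matrix.mul_add, Matrix.add_mul, Matrix.mul_sub,
    Matrix.mul_sub, h]
  abel

/-- The matrices of the planar difference set: two commuting sign matrices `A`, `B` of order `v` with
`A Aᵀ + B Bᵀ = Aᵀ A + Bᵀ B = (2 v - 2) I + 2 J`. -/
theorem Circ_pair (hD : Planar D) : ∃ A B : Matrix G G ℝ,
    (∀ i j, A i j = 1 ∨ A i j = -1) ∧ (∀ i j, B i j = 1 ∨ B i j = -1) ∧ A * B = B * A ∧
    A * Aᵀ + B * Bᵀ = (2 * (Fintype.card G : ℝ) - 2) • (1 : Matrix G G ℝ) +
      (2 : ℝ) • (Matrix.of fun _ _ => 1) ∧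
    Bᵀ * B + Aᵀ * A = (2 * (Fintype.card G : ℝ) - 2) • (1 : Matrix G G ℝ) +
      (2 : ℝ) • (Matrix.of fun _ _ => 1) := by
  set k : ℝ := (D.card : ℝ) with hk
  have hcard : k * k + 1 = (Fintype.card G : ℝ) + k := by
    rw [hk]
    exact_mod_cast Circ_card hD
  set R : Matrix G G ℝ := circulant (Circ_c D) with hR
  set T : Matrix G G ℝ := circulant (Circ_c (D.image (fun x : G => x + x))) with hT
  set J : Matrix G G ℝ := Circ_J G with hJ
  have hJc : J = circulant (fun _ : G => (1 : ℝ)) := rfl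
  have hJT : Jᵀ = J := rfl
  have hRR : R * Rᵀ = (k - 1) • (1 : Matrix G G ℝ) + J := Circ_corr hD
  have hTT : T * Tᵀ = (k - 1) • (1 : Matrix G G ℝ) + J := by
    have h1 := Circ_corr (Circ_two hD)
    rw [Circ_two_card hD] at h1
    exact h1
  have hRJ : R * J = k • J := Circ_mulJ D
  have hJJ : J * J = (Fintype.card G : ℝ) • J := Circ_JJ
  have hJR : J * Rᵀ = k • J := by
    have h1 := congrArg Matrix.transpose hRJ
    rw [Matrix.transpose_mul, hJT, Matrix.transpose_smul, hJT] at h1
    exact h1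
  -- `X = R ^ 2 - J`
  set X : Matrix G G ℝ := R * R - J with hX
  have hXX : X * Xᵀ = ((k - 1) * (k - 1)) • (1 : Matrix G G ℝ) := by
    have h1 : Xᵀ = Rᵀ * Rᵀ - J := by
      rw [hX, Matrix.transpose_sub, Matrix.transpose_mul, hJT]
    have h2 : R * R * (Rᵀ * Rᵀ) = ((k - 1) * (k - 1)) • (1 : Matrix G G ℝ) +
        ((k - 1) + k * k) • J := by
      calc R * R * (Rᵀ * Rᵀ) = R * (R * Rᵀ) * Rᵀ := by
            rw [Matrix.mul_assoc, Matrix.mul_assoc, ← Matrix.mul_assoc R Rᵀ Rᵀ]
        _ = (k - 1) • (R * Rᵀ) + k • (J * Rᵀ) := by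
            rw [hRR, Matrix.mul_add, Matrix.mul_smul, Matrix.mul_one, hRJ, Matrix.add_mul,
              Matrix.smul_mul, Matrix.smul_mul, hRR]
        _ = _ := by
            rw [hRR, hJR]
            ext i j
            simp only [Matrix.add_apply, Matrix.smul_apply, smul_eq_mul]
            ring
    have h3 : R * R * J = (k * k) • J := by
      rw [Matrix.mul_assoc, hRJ, Matrix.mul_smul, hRJ, smul_smul]
    have h4 : J * (Rᵀ * Rᵀ) = (k * k) • J := by
      rw [← Matrix.mul_assoc, hJR, Matrix.smul_mul, hJR, smul_smul]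
    rw [h1, hX, Matrix.sub_mul, Matrix.mul_sub, Matrix.mul_sub, h2, h3, h4, hJJ]
    ext i j
    simp only [Matrix.add_apply, Matrix.sub_apply, Matrix.smul_apply, smul_eq_mul]
    linear_combination (-(J i j)) * hcard
  -- everything is circulant
  have hXc : ∃ w : G → ℝ, X = circulant w :=
    ⟨circulant (Circ_c D) *ᵥ Circ_c D - fun _ => 1, by
      rw [hX, hR, hJc, Matrix.circulant_mul, Matrix.circulant_sub]⟩
  obtain ⟨w, hw⟩ := hXc
  have hTX : T * X = X * T := by
    rw [hw, hT]
    exact Matrix.circulant_mul_comm _ _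
  have hA : ∃ a : G → ℝ, T - X = circulant a := ⟨_, by rw [hw, hT, Matrix.circulant_sub]⟩
  have hB : ∃ a : G → ℝ, T + X = circulant a := ⟨_, by rw [hw, hT, Matrix.circulant_add]⟩
  have hn : ∀ {Y : Matrix G G ℝ}, (∃ a : G → ℝ, Y = circulant a) → Yᵀ * Y = Y * Yᵀ := by
    rintro _ ⟨a, rfl⟩
    rw [Matrix.transpose_circulant]
    exact Matrix.circulant_mul_comm _ _
  have hsum : (T - X) * (T - X)ᵀ + (T + X) * (T + X)ᵀ =
      (2 * (Fintype.card G : ℝ) - 2) • (1 : Matrix G G ℝ) + (2 : ℝ) • J := by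
    have h1 : (T - X) * (T - X)ᵀ + (T + X) * (T + X)ᵀ = (2 : ℝ) • (T * Tᵀ + X * Xᵀ) := by
      rw [Matrix.transpose_sub, Matrix.transpose_add, Matrix.sub_mul, Matrix.mul_sub,
        Matrix.mul_sub, Matrix.add_mul, Matrix.mul_add, Matrix.mul_add, two_smul]
      abel
    rw [h1, hTT, hXX]
    ext i j
    simp only [Matrix.add_apply, Matrix.smul_apply, smul_eq_mul]
    linear_combination (2 * (1 : Matrix G G ℝ) i j) * hcard
  refine ⟨T - X, T + X, fun i j => ?_, fun i j => ?_, ?_, hsum, ?_⟩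
  · have h1 : (T - X) i j = Circ_c (D.image (fun x : G => x + x)) (i - j) + 1 -
        (Circ_s D (i - j) : ℝ) := by
      rw [Matrix.sub_apply, hX, Matrix.sub_apply, Circ_sq]
      show Circ_c (D.image (fun x : G => x + x)) (i - j) - (_ - 1) = _
      ring
    rw [h1]
    unfold Circ_c
    split_ifs with h
    · left
      rw [Circ_s_one hD h]
      norm_num
    · rcases Circ_s_two hD h with h2 | h2
      · left
        rw [h2]
        norm_num
      · right
        rw [h2]
        norm_num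
  · have h1 : (T + X) i j = Circ_c (D.image (fun x : G => x + x)) (i - j) - 1 +
        (Circ_s D (i - j) : ℝ) := by
      rw [Matrix.add_apply, hX, Matrix.sub_apply, Circ_sq]
      show Circ_c (D.image (fun x : G => x + x)) (i - j) + (_ - 1) = _
      ring
    rw [h1]
    unfold Circ_c
    split_ifs with h
    · left
      rw [Circ_s_one hD h]
      norm_num
    · rcases Circ_s_two hD h with h2 | h2
      · right
        rw [h2]
        norm_num
      · left
        rw [h2]
        norm_num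
  · exact Circ_comm hTX
  · rw [hn hA, hn hB, add_comm]
    exact hsum

/-- The Ehlich-Wojtas matrix. -/
theorem Circ_ew (hD : Planar D) : ∃ M : Matrix (G ⊕ G) (G ⊕ G) ℝ,
    (∀ i j, M i j = 1 ∨ M i j = -1) ∧
    M * Mᵀ = (2 * (Fintype.card G : ℝ) - 2) • (1 : Matrix (G ⊕ G) (G ⊕ G) ℝ) +
      (2 : ℝ) • Matrix.fromBlocks (Matrix.of fun _ _ => 1) 0 0 (Matrix.of fun _ _ => 1) := by
  obtain ⟨A, B, hA, hB, hAB, h1, h2⟩ := Circ_pair hD
  refine ⟨Matrix.fromBlocks A B (-Bᵀ) Aᵀ, ?_, ?_⟩
  · rintro (i | i) (j | j)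
    · exact hA i j
    · exact hB i j
    · show -B j i = 1 ∨ -B j i = -1
      rcases hB j i with h | h
      · right
        rw [h]
      · left
        rw [h, neg_neg]
    · exact hA j i
  · have h3 : Bᵀ * Aᵀ = Aᵀ * Bᵀ := by
      rw [← Matrix.transpose_mul, ← Matrix.transpose_mul, hAB]
    rw [Matrix.fromBlocks_transpose, Matrix.fromBlocks_multiply, Matrix.transpose_neg,
      Matrix.transpose_transpose, Matrix.transpose_transpose, h1, Matrix.mul_neg, Matrix.neg_mul,
      neg_mul_neg, h2, hAB, h3, neg_add_cancel, neg_add_cancel, Matrix.fromBlocks_smul,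
      ← Matrix.fromBlocks_one, Matrix.fromBlocks_smul, Matrix.fromBlocks_add]
    simp only [smul_zero, add_zero]

end Pool.Agent.H.MP_abf7f7_an
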